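import Pool.Agent.H29.LG.Targets

/-!
# Row GROF of the board lgx_modules (helper68), MP_c65535_nt

Growth of the rank of the values under `q`-th powers, over a field with finitely many roots of
unity.
-/

set_option autoImplicit false

namespace Pool.Agent.H68.LG

open NumberField Height Finset Polynomial Pool.Agent.H24.RD Pool.Agent.H23.RDD Pool.Agent.H29.RQ
  Pool.Agent.H29.SX Pool.Agent.H29.LG

theorem pf_GROF (h1 : T_GR1F) (h2 : T_GR2) : T_GROF := by
  intro K Ω _ _ _ p i hp ζ hζ m y N hy hN σ ρ hσ hcl hst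
  have hq : 0 < p ^ i := pow_pos hp.pos i
  have ha := h1 K Ω p i hp ζ hζ m y N hy hN σ ρ hσ hcl
  have hb := h2 K Ω p hp i ζ hζ m y N σ hy hN hσ hst ((p : ℝ) ^ i * ρ)
  exact Nat.le_of_mul_le_mul_left (hb.trans ha) (pow_pos hq m)

end Pool.Agent.H68.LG
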