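import Pool.Agent.H29.LG.Targets

/-!
# Row NINF of the board lgx_modules (helper68), MP_c65535_nt

If all the relations of one of two powers of a point are relations of the other, then the powers
are conjugate. The two lemmas at the beginning are those of Pool/Agent/H84/SX/NIN.lean.
-/

set_option autoImplicit false

namespace Pool.Agent.H68.LG

open NumberField Height Finset Polynomial Pool.Agent.H24.RD Pool.Agent.H23.RDD Pool.Agent.H29.RQ
  Pool.Agent.H29.SX Pool.Agent.H29.LG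

private theorem ninf_ev {K A R : Type} [Field K] [CommRing R] [Algebra K R] (y : A → R)
    (f : A →₀ K) : ev K y f = Finsupp.linearCombination K y f := by
  unfold ev
  rw [Finsupp.linearCombination_apply]
  exact Finsupp.sum_congr fun a _ => (Algebra.smul_def _ _).symm

/-- A linear map determined by its values on a family of vectors. -/
private theorem exists_lin {K A Ω : Type} [Field K] [Field Ω] [Algebra K Ω] (y z : A → Ω) (S : Set A)
    (h : ∀ f : A →₀ K, (∀ a ∈ f.support, a ∈ S) → ev K y f = 0 → ev K z f = 0) :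
    ∃ Ψ : Ω →ₗ[K] Ω, ∀ a ∈ S, Ψ (y a) = z a := by
  classical
  obtain ⟨L1, hL1⟩ : ∃ L : Finsupp.supported K K S →ₗ[K] Ω,
      L = (Finsupp.linearCombination K y).domRestrict _ := ⟨_, rfl⟩
  obtain ⟨L2, hL2⟩ : ∃ L : Finsupp.supported K K S →ₗ[K] Ω,
      L = (Finsupp.linearCombination K z).domRestrict _ := ⟨_, rfl⟩
  obtain ⟨s, hs⟩ := LinearMap.exists_rightInverse_of_surjective L1.rangeRestrict
    (LinearMap.range_rangeRestrict L1)
  obtain ⟨Ψ, hΨ⟩ := LinearMap.exists_extend (L2 ∘ₗ s)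
  refine ⟨Ψ, fun a ha => ?_⟩
  have hmem : Finsupp.single a (1 : K) ∈ Finsupp.supported K K S := by
    rw [Finsupp.mem_supported]
    intro b hb
    rw [Finset.mem_coe, Finsupp.mem_support_iff, Finsupp.single_apply] at hb
    by_contra hne
    apply hb
    rw [if_neg]
    rintro rfl
    exact hne ha
  obtain ⟨u, hu⟩ : ∃ u : Finsupp.supported K K S, u = ⟨Finsupp.single a (1 : K), hmem⟩ :=
    ⟨_, rfl⟩
  have h1 : L1 u = y a := by
    rw [hL1, hu, LinearMap.domRestrict_apply, Finsupp.linearCombination_single, one_smul]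
  have h2 : L2 u = z a := by
    rw [hL2, hu, LinearMap.domRestrict_apply, Finsupp.linearCombination_single, one_smul]
  have h3 : Ψ (L1 u) = L2 (s (L1.rangeRestrict u)) := by
    have := LinearMap.congr_fun hΨ (L1.rangeRestrict u)
    exact this
  have h4 : L1 (s (L1.rangeRestrict u)) = L1 u := by
    have h5 := LinearMap.congr_fun hs (L1.rangeRestrict u)
    exact congrArg Subtype.val h5
  have key : ∀ v w : Finsupp.supported K K S, L1 v = L1 w → L2 v = L2 w := by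
    intro v w hvw
    have e1 : ∀ v : Finsupp.supported K K S, Finsupp.linearCombination K y v.1 = L1 v := by
      intro v
      rw [hL1]
      rfl
    have e2 : ∀ v : Finsupp.supported K K S, Finsupp.linearCombination K z v.1 = L2 v := by
      intro v
      rw [hL2]
      rfl
    have h7 : ev K y (v.1 - w.1) = 0 := by
      rw [ninf_ev, map_sub, e1, e1, hvw, sub_self]
    have h8 : v.1 - w.1 ∈ Finsupp.supported K K S := Submodule.sub_mem _ v.2 w.2
    have h9 := h (v.1 - w.1) (fun b hb => (Finsupp.mem_supported _ _).1 h8 hb) h7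
    rw [ninf_ev, map_sub, e2, e2, sub_eq_zero] at h9
    exact h9
  rw [← h1, h3, key _ _ h4, h2]

theorem pf_NINF (h1 : T_GROF) (h2 : T_TWI) : T_NINF := by
  classical
  intro K Ω _ _ _ p₁ p₂ i₁ i₂ hp₁ hp₂ hlt ζ₁ ζ₂ hζ₁ hζ₂ θ₁ θ₂ κ₁ κ₂ hθ₁ hθ₂ m y N σ ρ hy hN hσ
    hcl hS₁ hS₂ hρ hrel a ha
  obtain ⟨q₁, hq₁⟩ : ∃ q : ℝ, q = (p₁ : ℝ) ^ i₁ := ⟨_, rfl⟩
  obtain ⟨q₂, hq₂⟩ : ∃ q : ℝ, q = (p₂ : ℝ) ^ i₂ := ⟨_, rfl⟩
  have hq₁n : ((p₁ ^ i₁ : ℕ) : ℝ) = q₁ := by rw [hq₁]; push_cast; rfl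
  have hq₂n : ((p₂ ^ i₂ : ℕ) : ℝ) = q₂ := by rw [hq₂]; push_cast; rfl
  have hq₁1 : (1 : ℝ) ≤ q₁ := by
    rw [← hq₁n]
    exact_mod_cast Nat.one_le_pow _ _ hp₁.pos
  have hq12 : q₁ + 1 ≤ q₂ := by
    rw [← hq₁n, ← hq₂n]
    exact_mod_cast hlt
  rw [← hq₂] at hρ
  have hq₂m : (1 : ℝ) ≤ q₂ ^ m := one_le_pow₀ (by linarith)
  have hm0 : (0 : ℝ) ≤ m := Nat.cast_nonneg m
  have hmq : (0 : ℝ) ≤ m * q₂ := mul_nonneg hm0 (by linarith)
  have hσρ : 8 * σ ≤ ρ := by nlinarith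
  have hρ0 : 0 ≤ ρ := by linarith
  have hN0 : N 0 = 0 := by
    have := hN.nsm 0 0
    rw [zero_smul, Nat.cast_zero, zero_mul] at this
    exact this
  have hNn : ∀ a, 0 ≤ N a := by
    intro a
    have h3 := hN.add a (-a)
    rw [add_neg_cancel, hN0, hN.neg] at h3
    linarith
  obtain ⟨z₁, hz₁⟩ : ∃ z : (Fin m → ℤ) → Ω, ∀ a, z a = θ₁ (y a ^ (p₁ ^ i₁)) := ⟨_, fun _ => rfl⟩
  obtain ⟨z₂, hz₂⟩ : ∃ z : (Fin m → ℤ) → Ω, ∀ a, z a = θ₂ (y a ^ (p₂ ^ i₂)) := ⟨_, fun _ => rfl⟩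
  have hz₁f : z₁ = fun a => θ₁ (y a ^ (p₁ ^ i₁)) := funext hz₁
  have hz₂f : z₂ = fun a => θ₂ (y a ^ (p₂ ^ i₂)) := funext hz₂
  rw [← hz₁f, ← hz₂f] at hrel
  rw [← hz₁, ← hz₂]
  obtain ⟨Ψ, hΨ⟩ := exists_lin (K := K) z₁ z₂ {a | N a ≤ ρ} (fun f hf h0 => hrel f hf h0)
  have hfd : ∀ (w : (Fin m → ℤ) → Ω) (r : ℝ), FiniteDimensional K (WW K w N r) := fun w r =>
    FiniteDimensional.span_of_finite K ((hN.fin r).image w)
  have hmap : ∀ r, r ≤ ρ → WW K z₂ N r = (WW K z₁ N r).map Ψ := by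
    intro r hr
    unfold WW
    rw [Submodule.map_span, Set.image_image]
    congr 1
    refine Set.image_congr fun a ha => ?_
    exact (hΨ a (le_trans ha hr)).symm
  have hmono : ∀ (w : (Fin m → ℤ) → Ω) (r r' : ℝ), r ≤ r' → WW K w N r ≤ WW K w N r' := by
    intro w r r' hr
    exact Submodule.span_mono (Set.image_mono fun a ha => le_trans ha hr)
  have htw₁ : ∀ r, Module.finrank K (WW K z₁ N r) =
      Module.finrank K (WW K (fun a => y a ^ (p₁ ^ i₁)) N r) := by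
    intro r
    rw [hz₁f]
    exact (h2 K Ω θ₁ κ₁ hθ₁ p₁ m (fun a => y a ^ (p₁ ^ i₁)) N).2 r
  have htw₂ : ∀ r, Module.finrank K (WW K z₂ N r) =
      Module.finrank K (WW K (fun a => y a ^ (p₂ ^ i₂)) N r) := by
    intro r
    rw [hz₂f]
    exact (h2 K Ω θ₂ κ₂ hθ₂ p₂ m (fun a => y a ^ (p₂ ^ i₂)) N).2 r
  have hysm : ∀ (n : ℕ) (a : Fin m → ℤ), y a ^ n = y (n • a) := by
    intro n a
    induction n with
    | zero => rw [pow_zero, zero_smul, hy.zero]
    | succ n ih => rw [pow_succ, ih, succ_nsmul, hy.add]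
  -- the ball of radius `q₁ ρ'`
  obtain ⟨W, hW⟩ : ∃ W : Submodule K Ω, W = WW K y N (q₁ * (ρ / 4)) := ⟨_, rfl⟩
  have hWfd : FiniteDimensional K W := by rw [hW]; exact hfd _ _
  have hle1 : Module.finrank K (WW K y N (q₁ * (ρ / 4) + ρ / 8)) ≤ Module.finrank K W := by
    have e1 := h1 K Ω p₂ i₂ hp₂ ζ₂ hζ₂ m y N hy hN σ (ρ / 4 - m * σ) hσ hcl hS₂
    rw [← hq₂, sub_add_cancel, ← htw₂, hmap _ (by linarith)] at e1
    have e2 := Submodule.finrank_map_le Ψ (WW K z₁ N (ρ / 4))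
    rw [htw₁] at e2
    have e3 : WW K (fun a => y a ^ (p₁ ^ i₁)) N (ρ / 4) ≤ W := by
      rw [hW]
      unfold WW
      refine Submodule.span_mono ?_
      rintro _ ⟨b, hb, rfl⟩
      rw [Set.mem_ofPred_eq] at hb
      refine ⟨(p₁ ^ i₁) • b, ?_, (hysm _ _).symm⟩
      rw [Set.mem_ofPred_eq, hN.nsm, hq₁n]
      exact mul_le_mul_of_nonneg_left hb (by linarith)
    have e4 : Module.finrank K (WW K y N (q₁ * (ρ / 4) + ρ / 8)) ≤
        Module.finrank K (WW K y N (q₂ * (ρ / 4 - m * σ) - q₂ ^ m * σ)) := by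
      refine Submodule.finrank_mono (hmono _ _ _ ?_)
      nlinarith
    exact (e4.trans e1).trans (e2.trans (Submodule.finrank_mono e3))
  have hWeq : W = WW K y N (q₁ * (ρ / 4) + ρ / 8) :=
    Submodule.eq_of_le_of_finrank_le (by rw [hW]; exact hmono _ _ _ (by linarith)) hle1
  have hstep : ∀ b, N b ≤ ρ / 8 → ∀ w ∈ W, y b * w ∈ W := by
    intro b hb w hw
    rw [hW] at hw
    unfold WW at hw
    induction hw using Submodule.span_induction with
    | mem v h =>
      obtain ⟨c, hc, rfl⟩ := h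
      rw [Set.mem_ofPred_eq] at hc
      rw [hWeq, ← hy.add]
      refine Submodule.subset_span ⟨b + c, ?_, rfl⟩
      rw [Set.mem_ofPred_eq]
      have := hN.add b c
      linarith
    | zero =>
      rw [mul_zero]
      exact Submodule.zero_mem _
    | add v v' _ _ h h' =>
      rw [mul_add]
      exact Submodule.add_mem _ h h'
    | smul c v _ h =>
      rw [mul_smul_comm]
      exact Submodule.smul_mem _ _ h
  have hall : ∀ b : Fin m → ℤ, (∀ w ∈ W, y b * w ∈ W) ∧ (∀ w ∈ W, y (-b) * w ∈ W) := by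
    intro b
    have hb : b ∈ AddSubgroup.closure {a : Fin m → ℤ | N a ≤ σ} := by
      rw [hcl]
      exact AddSubgroup.mem_top b
    induction hb using AddSubgroup.closure_induction with
    | mem b h =>
      rw [Set.mem_ofPred_eq] at h
      exact ⟨hstep b (by linarith), hstep (-b) (by rw [hN.neg]; linarith)⟩
    | zero =>
      rw [neg_zero]
      constructor <;>
      · intro w hw
        rw [hy.zero, one_mul]
        exact hw
    | add b c _ _ hb hc =>
      refine ⟨fun w hw => ?_, fun w hw => ?_⟩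
      · rw [hy.add, mul_assoc]
        exact hb.1 _ (hc.1 _ hw)
      · rw [neg_add, hy.add, mul_assoc]
        exact hb.2 _ (hc.2 _ hw)
    | neg b _ hb =>
      refine ⟨hb.2, ?_⟩
      rw [neg_neg]
      exact hb.1
  have h1W : (1 : Ω) ∈ W := by
    rw [hW, ← hy.zero]
    refine Submodule.subset_span ⟨0, ?_, rfl⟩
    rw [Set.mem_ofPred_eq, hN0]
    positivity
  have hyW : ∀ b, y b ∈ W := by
    intro b
    have := (hall b).1 1 h1W
    rwa [mul_one] at this
  have hle : Module.finrank K (WW K z₁ N ρ) ≤ Module.finrank K (WW K z₁ N (ρ / 2)) := by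
    rw [htw₁, htw₁]
    have e1 := h1 K Ω p₁ i₁ hp₁ ζ₁ hζ₁ m y N hy hN σ (ρ / 2 - m * σ) hσ hcl hS₁
    rw [← hq₁, sub_add_cancel] at e1
    have e2 : WW K (fun a => y a ^ (p₁ ^ i₁)) N ρ ≤ W := by
      unfold WW
      rw [Submodule.span_le]
      rintro _ ⟨b, _, rfl⟩
      change y b ^ (p₁ ^ i₁) ∈ W
      rw [hysm]
      exact hyW _
    have hq₁m : q₁ ^ m ≤ q₂ ^ m := pow_le_pow_left₀ (by linarith) (by linarith) m
    have hmq' : m * q₁ ≤ m * q₂ := mul_le_mul_of_nonneg_left (by linarith) hm0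
    have h5 : (m * q₁ + q₁ ^ m) * σ ≤ (m * q₂ + q₂ ^ m) * σ :=
      mul_le_mul_of_nonneg_right (by linarith) hσ
    have h6 : ρ / 8 ≤ q₁ * (ρ / 4) := by nlinarith
    have e3 : Module.finrank K W ≤
        Module.finrank K (WW K y N (q₁ * (ρ / 2 - m * σ) - q₁ ^ m * σ)) := by
      rw [hW]
      refine Submodule.finrank_mono (hmono _ _ _ ?_)
      nlinarith
    exact (Submodule.finrank_mono e2).trans (e3.trans e1)
  have hEq : WW K z₁ N (ρ / 2) = WW K z₁ N ρ :=
    Submodule.eq_of_le_of_finrank_le (hmono _ _ _ (by linarith)) hle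
  have hya : ∀ a, N a ≤ ρ → z₁ a ∈ WW K z₁ N ρ := fun a ha => Submodule.subset_span ⟨a, ha, rfl⟩
  have hz₁add : ∀ a b, z₁ (a + b) = z₁ a * z₁ b := by
    intro a b
    rw [hz₁, hz₁, hz₁, hy.add, mul_pow, map_mul]
  have hz₂add : ∀ a b, z₂ (a + b) = z₂ a * z₂ b := by
    intro a b
    rw [hz₂, hz₂, hz₂, hy.add, mul_pow, map_mul]
  have hz₁0 : z₁ 0 = 1 := by rw [hz₁, hy.zero, one_pow, map_one]
  have hz₂0 : z₂ 0 = 1 := by rw [hz₂, hy.zero, one_pow, map_one]
  have hmul : ∀ u ∈ WW K z₁ N (ρ / 2), ∀ v ∈ WW K z₁ N (ρ / 2),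
      u * v ∈ WW K z₁ N ρ ∧ Ψ (u * v) = Ψ u * Ψ v := by
    intro u hu v hv
    unfold WW at hu hv
    induction hu using Submodule.span_induction with
    | mem u h =>
      obtain ⟨b, hb, rfl⟩ := h
      rw [Set.mem_ofPred_eq] at hb
      induction hv using Submodule.span_induction with
      | mem v h =>
        obtain ⟨c, hc, rfl⟩ := h
        rw [Set.mem_ofPred_eq] at hc
        have h3 : N (b + c) ≤ ρ := by
          have := hN.add b c
          linarith
        rw [← hz₁add]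
        exact ⟨hya _ h3, by
          rw [hΨ _ h3, hΨ b (by change N b ≤ ρ; linarith), hΨ c (by change N c ≤ ρ; linarith),
            hz₂add]⟩
      | zero =>
        rw [mul_zero, map_zero, mul_zero]
        exact ⟨Submodule.zero_mem _, rfl⟩
      | add v v' _ _ h h' =>
        rw [mul_add, map_add, map_add, mul_add, h.2, h'.2]
        exact ⟨Submodule.add_mem _ h.1 h'.1, rfl⟩
      | smul c v _ h =>
        rw [mul_smul_comm, map_smul, map_smul, mul_smul_comm, h.2]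
        exact ⟨Submodule.smul_mem _ _ h.1, rfl⟩
    | zero =>
      rw [zero_mul, map_zero, zero_mul]
      exact ⟨Submodule.zero_mem _, rfl⟩
    | add v v' _ _ h h' =>
      rw [add_mul, map_add, map_add, add_mul, h.2, h'.2]
      exact ⟨Submodule.add_mem _ h.1 h'.1, rfl⟩
    | smul c v _ h =>
      rw [smul_mul_assoc, map_smul, map_smul, smul_mul_assoc, h.2]
      exact ⟨Submodule.smul_mem _ _ h.1, rfl⟩
  have hpow : ∀ n : ℕ, z₁ a ^ n ∈ WW K z₁ N ρ ∧ Ψ (z₁ a ^ n) = z₂ a ^ n := by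
    intro n
    induction n with
    | zero =>
      rw [pow_zero, pow_zero, ← hz₁0]
      refine ⟨hya 0 (by rw [hN0]; exact hρ0), ?_⟩
      rw [hΨ 0 (by change N 0 ≤ ρ; rw [hN0]; exact hρ0), hz₂0]
      exact hz₁0.symm
    | succ n ih =>
      have h3 := hmul (z₁ a ^ n) (by rw [hEq]; exact ih.1) (z₁ a) (by rw [hEq]; exact hya a ha)
      rw [pow_succ, pow_succ]
      exact ⟨h3.1, by rw [h3.2, ih.2, hΨ a ha]⟩
  have hP : ∀ P : K[X], Ψ (aeval (z₁ a) P) = aeval (z₂ a) P := by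
    intro P
    rw [aeval_eq_sum_range, aeval_eq_sum_range, map_sum]
    refine Finset.sum_congr rfl fun n _ => ?_
    rw [map_smul, (hpow n).2]
  rw [← hP, minpoly.aeval, map_zero]

end Pool.Agent.H68.LG
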